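import Mathlib
import Pool.Agent.H98.Bern

set_option autoImplicit false
open MeasureTheory

namespace Pool.Agent.Results.MP_71d783_pr.Chain

section defs
variable {V : Type} (G : SimpleGraph V)

/-- i.i.d. uniform labels -/
noncomputable def iid (V : Type) : Measure (V → unitInterval) := Measure.infinitePi fun _ => volume

/-- perfect matching, as a symmetric relation -/
def IsPM (M : V → V → Bool) : Prop :=
  (∀ x y, M x y = true → G.Adj x y) ∧ (∀ x y, M x y = M y x) ∧ ∀ x, ∃! y, M x y = true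

/-- balanced orientation of a `2d`-regular graph: `O x y` means the edge is oriented from `x` to `y` -/
def IsBal (d : ℕ) (O : V → V → Bool) : Prop :=
  (∀ x y, O x y = true → G.Adj x y) ∧ (∀ x y, G.Adj x y → (O x y = true ↔ O y x = false)) ∧
    ∀ x, {y | O x y = true}.ncard = d ∧ {y | O y x = true}.ncard = d

/-- Schreier decoration: `S x y = c + 1` (`c < d`) means that the edge is oriented from `x` to `y`
with colour `c`; `S x y = 0` means that there is no edge oriented from `x` to `y` -/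
def IsSch (d : ℕ) (S : V → V → ℕ) : Prop :=
  (∀ x y, S x y ≤ d) ∧ (∀ x y, S x y ≠ 0 → G.Adj x y) ∧
    (∀ x y, G.Adj x y → (S x y ≠ 0 ↔ S y x = 0)) ∧
    ∀ x, ∀ c < d, (∃! y, S x y = c + 1) ∧ ∃! y, S y x = c + 1

/-- equivariance at every point -/
def Equi {β : Type} (Φ : (V → unitInterval) → V → V → β) : Prop :=
  ∀ (σ : G ≃g G) (ω : V → unitInterval) (x y : V), Φ (ω ∘ σ.symm) (σ x) (σ y) = Φ ω x y

/-- almost sure equivariance (weaker than `Equi`) -/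
def EquiAE {β : Type} (Φ : (V → unitInterval) → V → V → β) : Prop :=
  ∀ σ : G ≃g G, ∀ᵐ ω ∂(iid V), ∀ x y : V, Φ (ω ∘ σ.symm) (σ x) (σ y) = Φ ω x y

def Pm (x y : V) : Prop :=
  G.Adj x y ∧ ((∃ a b c, a ≠ b ∧ a ≠ c ∧ b ≠ c ∧ G.Adj x a ∧ G.Adj x b ∧ G.Adj x c ∧
      G.Adj y a ∧ G.Adj y b ∧ G.Adj y c) ∨
    ((∀ a, G.Adj x a → ¬ G.Adj y a) ∧ ∃ a b, G.Adj x a ∧ G.Adj y b ∧ G.Adj a b ∧ a ≠ y ∧ b ≠ x))

lemma Pm_map (σ : G ≃g G) (x y : V) (h : Pm G x y) : Pm G (σ x) (σ y) := by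
  have hi := σ.injective
  obtain ⟨h0, h | ⟨h1, a, b, h2, h3, h4, h5, h6⟩⟩ := h
  · obtain ⟨a, b, c, h1, h2, h3, h4, h5, h6, h7, h8, h9⟩ := h
    exact ⟨σ.map_adj_iff.2 h0, Or.inl ⟨σ a, σ b, σ c, hi.ne h1, hi.ne h2, hi.ne h3,
      σ.map_adj_iff.2 h4, σ.map_adj_iff.2 h5, σ.map_adj_iff.2 h6, σ.map_adj_iff.2 h7,
      σ.map_adj_iff.2 h8, σ.map_adj_iff.2 h9⟩⟩
  · refine ⟨σ.map_adj_iff.2 h0, Or.inr ⟨fun a ha hb => ?_, σ a, σ b, σ.map_adj_iff.2 h2,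
      σ.map_adj_iff.2 h3, σ.map_adj_iff.2 h4, hi.ne h5, hi.ne h6⟩⟩
    obtain ⟨a, rfl⟩ := σ.surjective a
    exact h1 a (σ.map_adj_iff.1 ha) (σ.map_adj_iff.1 hb)

lemma Pm_iff (σ : G ≃g G) (x y : V) : Pm G (σ x) (σ y) ↔ Pm G x y :=
  ⟨fun h => by simpa using Pm_map G σ.symm _ _ h, Pm_map G σ x y⟩
end defs

abbrev W := ℤ × Fin 6

def dn : Fin 6 → Fin 4 → ℤ :=
  ![![-1, 0, 0, 0], ![0, 0, 0, 0], ![0, 0, 0, 0], ![0, 0, 0, 0], ![0, 0, 0, 0], ![1, 0, 0, 0]]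
def dj : Fin 6 → Fin 4 → Fin 6 :=
  ![![5, 5, 1, 2], ![0, 2, 3, 4], ![0, 1, 3, 4], ![5, 1, 2, 4], ![5, 1, 2, 3], ![0, 0, 3, 4]]
def nb (x : W) (k : Fin 4) : W := (x.1 + dn x.2 k, dj x.2 k)

def G0 : SimpleGraph W where
  Adj x y := ∃ k, y = nb x k
  symm := ⟨by
    rintro ⟨n, i⟩ _ ⟨k, rfl⟩
    have : ∀ i k, ∃ l, dj (dj i k) l = i ∧ dn i k + dn (dj i k) l = 0 := by decide
    obtain ⟨l, h1, h2⟩ := this i k
    exact ⟨l, by simp only [nb, h1, Prod.mk.injEq, and_true]; omega⟩⟩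
  loopless := ⟨by
    rintro ⟨n, i⟩ ⟨k, h⟩
    have : ∀ i k, dj i k ≠ i := by decide
    exact this i k (congrArg Prod.snd h).symm⟩

lemma adj_iff (x y : W) : G0.Adj x y ↔ ∃ k, y = nb x k := Iff.rfl

lemma nb_inj (x : W) : Function.Injective (nb x) := by
  intro k l h
  have : ∀ i k l, dn i k = dn i l → dj i k = dj i l → k = l := by decide
  simp only [nb, Prod.mk.injEq] at h
  exact this x.2 k l (by omega) h.2

def tr (m : ℤ) : G0 ≃g G0 where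
  toFun x := (x.1 + m, x.2)
  invFun x := (x.1 - m, x.2)
  left_inv x := by simp
  right_inv x := by simp
  map_rel_iff' := by
    rintro ⟨n, i⟩ ⟨n', j⟩
    simp only [Equiv.coe_fn_mk, adj_iff, nb, Prod.mk.injEq]
    refine exists_congr fun k => and_congr_left fun _ => by omega

def fl (m : ℤ) : G0 ≃g G0 where
  toFun x := (m - x.1, x.2.rev)
  invFun x := (m - x.1, x.2.rev)
  left_inv x := by simp
  right_inv x := by simp
  map_rel_iff' := by
    rintro ⟨n, i⟩ ⟨n', j⟩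
    simp only [Equiv.coe_fn_mk, adj_iff, nb, Prod.mk.injEq]
    have h : ∀ i k, ∃ l, dj (Fin.rev i) l = (dj i k).rev ∧ dn (Fin.rev i) l = - dn i k := by decide
    constructor
    · rintro ⟨k, h1, h2⟩
      obtain ⟨l, h3, h4⟩ := h i.rev k
      rw [Fin.rev_rev] at h3 h4
      exact ⟨l, by omega, by rw [h3, ← h2, Fin.rev_rev]⟩
    · rintro ⟨k, h1, h2⟩
      obtain ⟨l, h3, h4⟩ := h i k
      exact ⟨l, by omega, by rw [h3, h2]⟩

def mt : Fin 6 → Fin 6 := ![5, 2, 1, 4, 3, 0]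

instance : DecidableRel G0.Adj := fun x y => inferInstanceAs (Decidable (∃ k, y = nb x k))

lemma Pm0 (i : Fin 6) (k : Fin 4) : Pm G0 (0, i) (nb (0, i) k) ↔ nb (0, i) k = (0, mt i) := by
  have e : ∀ x y : W, Pm G0 x y ↔ G0.Adj x y ∧ ((∃ a b c : Fin 4, a ≠ b ∧ a ≠ c ∧ b ≠ c ∧
      G0.Adj y (nb x a) ∧ G0.Adj y (nb x b) ∧ G0.Adj y (nb x c)) ∨
      ((∀ a, ¬ G0.Adj y (nb x a)) ∧ ∃ a b, G0.Adj (nb x a) (nb y b) ∧ nb x a ≠ y ∧ nb y b ≠ x)) := by
    intro x y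
    refine and_congr_right fun _ => or_congr ⟨?_, ?_⟩ (and_congr ⟨?_, ?_⟩ ⟨?_, ?_⟩)
    · rintro ⟨_, _, _, h1, h2, h3, ⟨a, rfl⟩, ⟨b, rfl⟩, ⟨c, rfl⟩, h4⟩
      exact ⟨a, b, c, fun h => h1 (h ▸ rfl), fun h => h2 (h ▸ rfl), fun h => h3 (h ▸ rfl), h4⟩
    · rintro ⟨a, b, c, h1, h2, h3, h4⟩
      exact ⟨_, _, _, (nb_inj x).ne h1, (nb_inj x).ne h2, (nb_inj x).ne h3, ⟨a, rfl⟩, ⟨b, rfl⟩,
        ⟨c, rfl⟩, h4⟩
    · exact fun h a => h _ ⟨a, rfl⟩
    · rintro h _ ⟨a, rfl⟩; exact h a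
    · rintro ⟨_, _, ⟨a, rfl⟩, ⟨b, rfl⟩, h⟩; exact ⟨a, b, h⟩
    · rintro ⟨a, b, h⟩; exact ⟨_, _, ⟨a, rfl⟩, ⟨b, rfl⟩, h⟩
  rw [e]
  revert i k
  decide +kernel

lemma Pm_eq (x y : W) : Pm G0 x y ↔ y = (x.1, mt x.2) := by
  obtain ⟨n, i⟩ := x
  obtain ⟨n', j⟩ := y
  have e1 : ((n, i) : W) = tr n (0, i) := by simp [tr]
  have e2 : ((n', j) : W) = tr n (n' - n, j) := by simp [tr]
  have hk : ∀ i, ∃ k, ((0, mt i) : W) = nb (0, i) k := by decide
  constructor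
  · intro h
    rw [e1, e2, Pm_iff] at h
    obtain ⟨k, hk⟩ := h.1
    rw [hk, Pm0, ← hk] at h
    simp only [Prod.mk.injEq] at h ⊢
    exact ⟨by omega, h.2⟩
  · intro h
    simp only [Prod.mk.injEq] at h
    obtain ⟨rfl, rfl⟩ := h
    rw [e1, e2, Pm_iff, sub_self]
    obtain ⟨k, hk⟩ := hk i
    rw [hk, Pm0, ← hk]

lemma step (O : W → W → Bool) (h : IsBal G0 2 O) (n : ℤ) :
    O (n, 5) (n + 1, 0) = O (n - 1, 5) (n, 0) := by
  classical
  obtain ⟨h1, h2, h3⟩ := h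
  set o : W → W → ℕ := fun x y => if O x y = true then 1 else 0 with ho
  have hs : ∀ x, o x (nb x 0) + o x (nb x 1) + o x (nb x 2) + o x (nb x 3) = 2 := by
    intro x
    have e : {y | O x y = true} = nb x '' ↑(Finset.univ.filter fun k => O x (nb x k) = true) := by
      ext y
      simp only [Set.mem_setOf_eq, Set.mem_image, Finset.coe_filter, Finset.mem_univ, true_and]
      constructor
      · intro hy
        obtain ⟨k, rfl⟩ := h1 x y hy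
        exact ⟨k, hy, rfl⟩
      · rintro ⟨k, hk, rfl⟩; exact hk
    have := (h3 x).1
    rw [e, Set.ncard_image_of_injective _ (nb_inj x), Set.ncard_coe_finset, Finset.card_filter,
      Fin.sum_univ_four] at this
    exact this
  have ha : ∀ x k, o x (nb x k) + o (nb x k) x = 1 := by
    intro x k
    have := h2 x (nb x k) ⟨k, rfl⟩
    simp only [ho]
    cases h : O x (nb x k) <;> cases h' : O (nb x k) x <;> simp_all
  have s0 := hs (n, 0); have s1 := hs (n, 1); have s2 := hs (n, 2)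
  have s3 := hs (n, 3); have s4 := hs (n, 4); have s5 := hs (n, 5)
  have a0 := ha (n, 0) 0; have a1 := ha (n, 0) 1; have a2 := ha (n, 0) 2; have a3 := ha (n, 0) 3
  have b1 := ha (n, 1) 1; have b2 := ha (n, 1) 2; have b3 := ha (n, 1) 3
  have c2 := ha (n, 2) 2; have c3 := ha (n, 2) 3; have d3 := ha (n, 3) 3
  have e2 := ha (n, 5) 2; have e3 := ha (n, 5) 3
  simp [nb, dn, dj] at s0 s1 s2 s3 s4 s5 a0 a1 a2 a3 b1 b2 b3 c2 c3 d3 e2 e3
  have : o (n, 5) (n + 1, 0) = o (n + -1, 5) (n, 0) := by omega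
  rw [sub_eq_add_neg]
  simp only [ho] at this
  cases h : O (n, 5) (n + 1, 0) <;> cases h' : O (n + -1, 5) (n, 0) <;> simp_all

lemma all (O : W → W → Bool) (h : IsBal G0 2 O) (n : ℕ) :
    O (n, 5) (n + 1, 0) = O (0, 5) (1, 0) := by
  induction n with
  | zero => simp
  | succ n ih => rw [step O h]; simpa using ih

lemma noBal : ¬ ∃ Φ : (W → unitInterval) → W → W → Bool, Measurable Φ ∧ EquiAE G0 Φ ∧
    ∀ᵐ ω ∂(iid W), IsBal G0 2 (Φ ω) := by
  rintro ⟨Φ, hm, he, hb⟩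
  have key : ∀ b : Bool, iid W {ω | Φ ω (0, 5) (1, 0) = b} = 0 := by
    intro b
    have mE : MeasurableSet {ω | Φ ω (0, 5) (1, 0) = b} :=
      ((measurable_pi_apply _).comp ((measurable_pi_apply _).comp hm)) (measurableSet_singleton b)
    refine Pool.Agent.H98.Bern.zero_of_far volume _ mE fun s => ?_
    obtain ⟨N, hN⟩ : ∃ N : ℕ, ∀ v ∈ s, v.1.natAbs ≤ N :=
      ⟨s.sup fun v => v.1.natAbs, fun v hv => Finset.le_sup (f := fun v : W => v.1.natAbs) hv⟩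
    refine ⟨(fl (2 * N + 1)).symm, (fl (2 * N + 1)).symm.injective, fun v hv hv' => ?_, ?_⟩
    · have h1 := hN v hv
      have h2 := hN _ hv'
      change ((2 * N + 1 : ℤ) - v.1).natAbs ≤ N at h2
      omega
    · refine measure_mono_null (t := {ω | ¬ (IsBal G0 2 (Φ ω) ∧ ∀ x y : W,
        Φ (ω ∘ (fl (2 * N + 1)).symm) (fl (2 * N + 1) x) (fl (2 * N + 1) y) = Φ ω x y)}) ?_
        (ae_iff.1 (hb.and (he _)))
      rintro ω ⟨h1, h2⟩ ⟨h3, h4⟩
      have h5 := h4 (2 * N + 1, 0) (2 * N, 5)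
      have e1 : fl (2 * N + 1) (2 * N + 1, 0) = (0, 5) := by simp [fl]
      have e2 : fl (2 * N + 1) (2 * N, 5) = (1, 0) := by simp [fl]
      rw [e1, e2] at h5
      have h6 := all _ h3 (2 * N)
      push_cast at h6
      have h7 := h3.2.1 (2 * N, 5) (2 * N + 1, 0) ⟨0, by simp [nb, dn, dj]⟩
      simp only [Set.mem_setOf_eq, Set.mem_preimage] at h1 h2
      rw [← h5, h6, h1, h2] at h7
      cases b <;> simp at h7
  have : iid W Set.univ = 0 := by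
    refine measure_mono_null (t := {ω | Φ ω (0, 5) (1, 0) = true} ∪ {ω | Φ ω (0, 5) (1, 0) = false})
      (fun ω _ => by simp) (measure_union_null (key _) (key _))
  simp [iid] at this

lemma bal_of_sch (S : W → W → ℕ) (h : IsSch G0 2 S) :
    IsBal G0 2 fun x y => decide (S x y ≠ 0) := by
  obtain ⟨h1, h2, h3, h4⟩ := h
  have two : ∀ f : W → ℕ, (∀ y, f y ≤ 2) → (∃! y, f y = 0 + 1) → (∃! y, f y = 1 + 1) →
      {y | decide (f y ≠ 0) = true}.ncard = 2 := by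
    rintro f hf ⟨a, ha, ha'⟩ ⟨b, hb, hb'⟩
    rw [Set.ncard_eq_two]
    refine ⟨a, b, by rintro rfl; omega, ?_⟩
    ext y
    simp only [Set.mem_setOf_eq, decide_eq_true_eq, Set.mem_insert_iff, Set.mem_singleton_iff]
    constructor
    · intro hy
      have := hf y
      rcases (by omega : f y = 0 + 1 ∨ f y = 1 + 1) with h | h
      · exact Or.inl (ha' y h)
      · exact Or.inr (hb' y h)
    · rintro (rfl | rfl) <;> omega
  refine ⟨fun x y h => h2 x y (by simpa using h), fun x y h => by simpa using h3 x y h, fun x =>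
    ⟨two _ (h1 x) (h4 x 0 (by norm_num)).1 (h4 x 1 (by norm_num)).1,
      two (fun y => S y x) (fun y => h1 y x) (h4 x 0 (by norm_num)).2 (h4 x 1 (by norm_num)).2⟩⟩

theorem result : ∃ G : SimpleGraph (ℤ × Fin 6),
    (∀ x, (G.neighborSet x).ncard = 4) ∧
    (∃ F : Finset (ℤ × Fin 6), ∀ x, ∃ σ : G ≃g G, σ x ∈ F) ∧
    (∃ Φ : (ℤ × Fin 6 → unitInterval) → ℤ × Fin 6 → ℤ × Fin 6 → Bool,
      Measurable Φ ∧ Equi G Φ ∧ ∀ ω, IsPM G (Φ ω)) ∧
    (¬ ∃ Φ : (ℤ × Fin 6 → unitInterval) → ℤ × Fin 6 → ℤ × Fin 6 → Bool,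
      Measurable Φ ∧ EquiAE G Φ ∧ ∀ᵐ ω ∂(iid (ℤ × Fin 6)), IsBal G 2 (Φ ω)) ∧
    (¬ ∃ Φ : (ℤ × Fin 6 → unitInterval) → ℤ × Fin 6 → ℤ × Fin 6 → ℕ,
      Measurable Φ ∧ EquiAE G Φ ∧ ∀ᵐ ω ∂(iid (ℤ × Fin 6)), IsSch G 2 (Φ ω)) := by
  classical
  refine ⟨G0, fun x => ?_, ⟨Finset.univ.image fun i => (0, i), fun x => ⟨tr (-x.1), ?_⟩⟩,
    ⟨fun _ x y => decide (Pm G0 x y), measurable_const, fun σ ω x y => by simp [Pm_iff],
      fun ω => ⟨fun x y h => (of_decide_eq_true h).1, fun x y => ?_, fun x => ?_⟩⟩, noBal, ?_⟩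
  · have : G0.neighborSet x = nb x '' Set.univ := by
      ext y; simp [adj_iff, eq_comm]
    rw [this, Set.ncard_image_of_injective _ (nb_inj x), Set.ncard_univ]; simp
  · simp [tr]
  · have : ∀ i j, j = mt i ↔ i = mt j := by decide
    simp only [Pm_eq, Prod.ext_iff, decide_eq_decide]
    rw [this, eq_comm]
  · simp [Pm_eq]
  · rintro ⟨Φ, hm, he, hb⟩
    refine noBal ⟨fun ω x y => decide (Φ ω x y ≠ 0), ?_, fun σ => ?_, ?_⟩
    · refine measurable_pi_lambda _ fun x => measurable_pi_lambda _ fun y => ?_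
      exact (measurable_of_countable fun m : ℕ => decide (m ≠ 0)).comp
        ((measurable_pi_apply _).comp ((measurable_pi_apply _).comp hm))
    · filter_upwards [he σ] with ω h x y
      rw [h]
    · filter_upwards [hb] with ω h
      exact bal_of_sch _ h

end Pool.Agent.Results.MP_71d783_pr.Chain
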